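import Pool.Agent.H1.WeakTrans.Ring

set_option autoImplicit false

namespace Pool.Agent.Results.MP_1abb56_al.SquareNotWeaklyTransitive

open Polynomial

/-- The `p`-height `|x|_p` of `x` in the additive group `G`: the largest `n` with `x ∈ p ^ n G`,
or `∞` if there is none. -/
noncomputable def pHeight {G : Type} [AddCommGroup G] (p : ℕ) (x : G) : ℕ∞ :=
  ⨆ n : {n : ℕ // ∃ g : G, p ^ n • g = x}, ((n : ℕ) : ℕ∞)

/-- The characteristic `χ_G(x)`, the family of all `p`-heights of `x`. Characteristics are ordered
coordinatewise (the order of the function type). -/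
noncomputable def characteristic {G : Type} [AddCommGroup G] (x : G) : Nat.Primes → ℕ∞ :=
  fun p => pHeight (p : ℕ) x

/-- `G` is transitive. -/
def IsTransitive (G : Type) [AddCommGroup G] : Prop :=
  ∀ x y : G, characteristic x = characteristic y → ∃ η : G ≃+ G, η x = y

/-- `G` is fully transitive. -/
def IsFullyTransitive (G : Type) [AddCommGroup G] : Prop :=
  ∀ x y : G, characteristic x ≤ characteristic y → ∃ φ : G →+ G, φ x = y

/-- `G` is Krylov transitive. -/
def IsKrylovTransitive (G : Type) [AddCommGroup G] : Prop :=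
  ∀ x y : G, characteristic x = characteristic y → ∃ φ : G →+ G, φ x = y

/-- `G` is weakly transitive. -/
def IsWeaklyTransitive (G : Type) [AddCommGroup G] : Prop :=
  ∀ x y : G, (∃ φ : G →+ G, φ x = y) → (∃ ψ : G →+ G, ψ y = x) → ∃ η : G ≃+ G, η x = y

/-- The height is at least `n` if and only if `x` is divisible by `p ^ n`. -/
theorem le_pHeight_iff {G : Type} [AddCommGroup G] (p n : ℕ) (x : G) :
    (n : ℕ∞) ≤ pHeight p x ↔ ∃ g : G, p ^ n • g = x := by
  constructor
  · intro h
    by_contra hcon
    have h1 : ∀ m : {m : ℕ // ∃ g : G, p ^ m • g = x}, ((m : ℕ) : ℕ∞) + 1 ≤ (n : ℕ∞) := by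
      rintro ⟨m, g, hg⟩
      have h2 : m < n := by
        by_contra hle
        rw [not_lt] at hle
        apply hcon
        refine ⟨p ^ (m - n) • g, ?_⟩
        rw [smul_smul, ← pow_add, Nat.add_sub_cancel' hle]
        exact hg
      exact_mod_cast h2
    have h3 : pHeight p x + 1 ≤ (n : ℕ∞) := by
      have hne : Nonempty {m : ℕ // ∃ g : G, p ^ m • g = x} := ⟨⟨0, x, by simp⟩⟩
      rw [pHeight, ENat.iSup_add]
      exact iSup_le h1
    have h4 : pHeight p x < (n : ℕ∞) := by
      refine lt_of_lt_of_le ?_ h3
      have h5 : pHeight p x ≠ ⊤ := by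
        intro htop
        rw [htop, top_add, top_le_iff] at h3
        exact ENat.natCast_ne_top n h3
      exact (ENat.lt_add_one_iff h5).2 le_rfl
    exact absurd h (not_le.2 h4)
  · intro h
    exact le_iSup (fun m : {m : ℕ // ∃ g : G, p ^ m • g = x} => ((m : ℕ) : ℕ∞)) ⟨n, h⟩

theorem characteristic_le_map {G : Type} [AddCommGroup G] (φ : G →+ G) (x : G) :
    characteristic x ≤ characteristic (φ x) := by
  intro p
  refine iSup_le ?_
  rintro ⟨n, g, hg⟩
  refine (le_pHeight_iff _ _ _).2 ⟨φ g, ?_⟩
  rw [← map_nsmul, hg]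

/-- There is a countable torsion-free abelian group `G` that is transitive, fully transitive,
Krylov transitive and weakly transitive and whose square `G ⊕ G` is not weakly transitive. -/
theorem result : ∃ (G : Type) (_ : AddCommGroup G),
    Countable G ∧ IsAddTorsionFree G ∧
    IsTransitive G ∧ IsFullyTransitive G ∧ IsKrylovTransitive G ∧ IsWeaklyTransitive G ∧
    ¬ IsWeaklyTransitive (G × G) := by
  obtain ⟨R, hend, hdvd, hunit, hX, hpair⟩ := H1.WeakTrans.exists_ring
  -- comparison of characteristics gives divisibility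
  have hchar : ∀ x y : R, characteristic x ≤ characteristic y → x ∣ y := by
    intro x y hxy
    apply hdvd
    intro p n hn
    exact (le_pHeight_iff _ _ _).1 (((le_pHeight_iff _ _ _).2 hn).trans (hxy p))
  have hfull : IsFullyTransitive R := by
    intro x y hxy
    obtain ⟨r, hr⟩ := hchar x y hxy
    exact ⟨AddMonoidHom.mulRight r, by rw [hr]; rfl⟩
  have htrans : IsTransitive R := by
    intro x y hxy
    obtain ⟨r, hr⟩ := hchar x y hxy.le
    obtain ⟨s, hs⟩ := hchar y x hxy.ge
    by_cases hx : x = 0
    · exact ⟨AddEquiv.refl R, by rw [hr, hx]; simp⟩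
    have hrs : r * s = 1 := by
      have h1 : x * (r * s) = x * 1 := by rw [← mul_assoc, ← hr, ← hs, mul_one]
      exact mul_left_cancel₀ hx h1
    have hsr : s * r = 1 := by rw [mul_comm]; exact hrs
    refine ⟨{ toFun := fun z => z * r, invFun := fun z => z * s, left_inv := ?_, right_inv := ?_,
              map_add' := fun u v => add_mul u v r }, ?_⟩
    · intro z
      simp only [mul_assoc, hrs, mul_one]
    · intro z
      simp only [mul_assoc, hsr, mul_one]
    · exact hr.symm
  have hweak : IsWeaklyTransitive R := by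
    rintro x y ⟨φ, rfl⟩ ⟨ψ, hψ⟩
    apply htrans
    refine le_antisymm (characteristic_le_map φ x) ?_
    have := characteristic_le_map ψ (φ x)
    rwa [hψ] at this
  refine ⟨R, inferInstance, ?_, ?_, htrans, hfull, ?_, hweak, ?_⟩
  · have hcount : Countable ℚ[X] := by
      rw [← Cardinal.mk_le_aleph0_iff]
      refine Polynomial.cardinalMk_le_max.trans ?_
      simp
    infer_instance
  · infer_instance
  · intro x y hxy
    exact hfull x y hxy.le
  · intro hW
    -- the two pairs are exchanged by endomorphisms
    let X' : R := ⟨X, hX⟩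
    have hφ : ∃ φ : (R × R) →+ (R × R), φ ((5 : R), X') = ((5 : R), 2 * X') :=
      ⟨{ toFun := fun p => (p.1, 2 * p.2), map_zero' := by simp,
         map_add' := fun p q => by simp [mul_add] }, rfl⟩
    have hψ : ∃ ψ : (R × R) →+ (R × R), ψ ((5 : R), 2 * X') = ((5 : R), X') :=
      ⟨{ toFun := fun p => (p.1, X' * p.1 - 2 * p.2), map_zero' := by simp,
         map_add' := fun p q => by ext1 <;> simp <;> ring }, by
        ext1
        · rfl
        · simp only [AddMonoidHom.coe_mk, ZeroHom.coe_mk]
          ring⟩
    obtain ⟨η, hη⟩ := hW _ _ hφ hψ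
    -- matrices of additive maps
    have hmat : ∀ φ : (R × R) →+ (R × R), ∃ a b c d : R, ∀ u v : R,
        φ (u, v) = (a * u + b * v, c * u + d * v) := by
      intro φ
      refine ⟨(φ (1, 0)).1, (φ (0, 1)).1, (φ (1, 0)).2, (φ (0, 1)).2, ?_⟩
      intro u v
      have h1 := hend ((AddMonoidHom.fst R R).comp (φ.comp (AddMonoidHom.inl R R))) u
      have h2 := hend ((AddMonoidHom.fst R R).comp (φ.comp (AddMonoidHom.inr R R))) v
      have h3 := hend ((AddMonoidHom.snd R R).comp (φ.comp (AddMonoidHom.inl R R))) u
      have h4 := hend ((AddMonoidHom.snd R R).comp (φ.comp (AddMonoidHom.inr R R))) v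
      simp only [AddMonoidHom.coe_comp, AddMonoidHom.coe_fst, AddMonoidHom.coe_snd,
        Function.comp_apply, AddMonoidHom.inl_apply, AddMonoidHom.inr_apply] at h1 h2 h3 h4
      have h5 : ((u, v) : R × R) = (u, 0) + (0, v) := by simp
      rw [h5, map_add]
      ext1
      · rw [Prod.fst_add, h1, h2]; ring
      · rw [Prod.snd_add, h3, h4]; ring
    obtain ⟨a, b, c, d, habcd⟩ := hmat (η : (R × R) →+ (R × R))
    obtain ⟨a', b', c', d', habcd'⟩ := hmat (η.symm : (R × R) →+ (R × R))
    simp only [AddMonoidHom.coe_coe] at habcd habcd'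
    -- the determinant is invertible
    have hinv : ∀ u v : R, η (η.symm (u, v)) = (u, v) := fun u v => η.apply_symm_apply _
    have h10 := hinv 1 0
    have h01 := hinv 0 1
    rw [habcd', habcd] at h10 h01
    simp only [mul_one, mul_zero, add_zero, zero_add, Prod.mk.injEq] at h10 h01
    have hdet : (a * d - b * c) * (a' * d' - b' * c') = 1 := by
      have e1 := h10.1
      have e2 := h10.2
      have e3 := h01.1
      have e4 := h01.2
      calc (a * d - b * c) * (a' * d' - b' * c')
          = (a * a' + b * c') * (c * b' + d * d') - (a * b' + b * d') * (c * a' + d * c') := by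
            ring
        _ = 1 := by rw [e1, e2, e3, e4]; ring
    have hη2 := habcd 5 X'
    rw [hη] at hη2
    simp only [Prod.mk.injEq] at hη2
    exact hpair a b c d hη2.1.symm hη2.2.symm (hunit _ _ hdet)

end Pool.Agent.Results.MP_1abb56_al.SquareNotWeaklyTransitive
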